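import Pool.Agent.Lib_helper87.D2.LimAPI

/-!
# Functions and predicates computable in an oracle: closure properties
-/

set_option autoImplicit false

namespace Pool.Agent.Lib_helper79.D2O

open Pool.Agent.Lib_helper87.D2 Encodable

variable {α β γ δ σ : Type*} [Primcodable α] [Primcodable β] [Primcodable γ] [Primcodable δ]
  [Primcodable σ] {O : ℕ →. ℕ}

/-- the total function `f` is computable in the oracle `O` -/
def OC (O : ℕ →. ℕ) (f : α → β) : Prop := ComputableIn {O} f

/-- the encoded function -/
def enc (f : α → β) : ℕ →. ℕ := fun n => Part.bind (decode (α := α) n) fun a =>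
  Part.some (encode (f a))

theorem enc_eq (f : α → β) : (fun n => Part.bind (decode (α := α) n) fun a =>
    (Part.some (f a)).map encode) = enc f := by
  funext n
  simp only [enc, Part.map_some]

theorem oc_iff {f : α → β} : OC O f ↔ Nat.RecursiveIn {O} (enc f) := by
  unfold OC ComputableIn RecursiveIn
  rw [enc_eq]

theorem enc_encode (f : α → β) (a : α) : enc f (encode a) = Part.some (encode (f a)) := by
  simp [enc]

theorem OC.of_computable {f : α → β} (hf : Computable f) : OC O f := hf.computableIn

theorem OC.of_eq {f g : α → β} (hf : OC O f) (h : ∀ a, f a = g a) : OC O g :=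
  (funext h : f = g) ▸ hf

theorem OC.comp {f : β → γ} {g : α → β} (hf : OC O f) (hg : OC O g) :
    OC O (fun a => f (g a)) := by
  rw [oc_iff] at hf hg ⊢
  refine (Nat.RecursiveIn.comp hf hg).of_eq (fun n => ?_)
  show (enc g n).bind (fun m => enc f m) = _
  rcases h : decode (α := α) n with - | a
  · have e1 : enc g n = Part.none := by simp [enc, h]
    have e2 : enc (fun a => f (g a)) n = Part.none := by simp [enc, h]
    rw [e1, e2, Part.bind_none]
  · have e1 : enc g n = Part.some (encode (g a)) := by simp [enc, h]
    have e2 : enc (fun a => f (g a)) n = Part.some (encode (f (g a))) := by simp [enc, h]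
    rw [e1, e2, Part.bind_some, enc_encode]

theorem OC.pair {f : α → β} {g : α → γ} (hf : OC O f) (hg : OC O g) :
    OC O (fun a => (f a, g a)) := by
  rw [oc_iff] at hf hg ⊢
  refine (Nat.RecursiveIn.pair hf hg).of_eq (fun n => ?_)
  simp only [enc]
  rcases h : decode (α := α) n with - | a
  · simp [Seq.seq]
  · simp [Seq.seq]

theorem OC.comp₂ {h : β → γ → δ} {f : α → β} {g : α → γ} (hh : Computable₂ h) (hf : OC O f)
    (hg : OC O g) : OC O (fun a => h (f a) (g a)) :=
  (OC.of_computable (f := fun p : β × γ => h p.1 p.2) hh).comp (hf.pair hg)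

theorem OC.comp_computable {f : β → γ} {g : α → β} (hf : OC O f) (hg : Computable g) :
    OC O (fun a => f (g a)) := hf.comp (OC.of_computable hg)

theorem OC.const (b : β) : OC O (fun _ : α => b) := OC.of_computable (Computable.const b)

theorem OC.cond {c : α → Bool} {f g : α → β} (hc : OC O c) (hf : OC O f) (hg : OC O g) :
    OC O (fun a => bif c a then f a else g a) := by
  have h : Computable (fun p : Bool × β × β => bif p.1 then p.2.1 else p.2.2) :=
    Computable.cond Computable.fst (Computable.fst.comp Computable.snd)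
      (Computable.snd.comp Computable.snd)
  exact (OC.of_computable h).comp (hc.pair (hf.pair hg))

/-- primitive recursion -/
theorem OC.nat_rec {f : α → ℕ} {g : α → σ} {h : α → ℕ × σ → σ} (hf : OC O f) (hg : OC O g)
    (hh : OC O (fun q : α × ℕ × σ => h q.1 q.2)) :
    OC O (fun a => Nat.rec (motive := fun _ => σ) (g a) (fun y ih => h a (y, ih)) (f a)) := by
  rw [oc_iff] at hf hg hh ⊢
  have hid : Nat.RecursiveIn {O} (fun n => Part.some n) :=
    (Partrec.nat_iff.1 (Computable.id (α := ℕ)).partrec).recursiveIn
  refine ((Nat.RecursiveIn.prec hg hh).comp (Nat.RecursiveIn.pair hid hf)).of_eq (fun n => ?_)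
  rcases e : decode (α := α) n with - | a
  · simp [enc, e, Seq.seq]
  · have e1 : enc f n = Part.some (f a) := by simp [enc, e]
    have e2 : enc g n = Part.some (encode (g a)) := by simp [enc, e]
    have e3 : ∀ y i, enc (fun q : α × ℕ × σ => h q.1 q.2) (Nat.pair n (Nat.pair y (encode (i : σ)))) =
        Part.some (encode (h a (y, i))) := by
      intro y i
      simp [enc, e]
    have e4 : enc (fun a => Nat.rec (motive := fun _ => σ) (g a) (fun y ih => h a (y, ih)) (f a)) n =
        Part.some (encode (Nat.rec (motive := fun _ => σ) (g a) (fun y ih => h a (y, ih)) (f a))) := by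
      simp [enc, e]
    rw [e4]
    have e5 : (Nat.pair <$> Part.some n <*> enc f n) = Part.some (Nat.pair n (f a)) := by
      rw [e1]
      simp [Seq.seq]
    show (Nat.pair <$> Part.some n <*> enc f n) >>= _ = _
    rw [e5]
    show Part.bind (Part.some (Nat.pair n (f a))) _ = _
    rw [Part.bind_some]
    simp only [Nat.unpair_pair]
    generalize f a = m
    induction m with
    | zero => exact e2
    | succ m ih =>
      show (Nat.rec (motive := fun _ => Part ℕ) (enc g n) _ m).bind _ = _
      rw [ih, Part.bind_some]
      exact e3 m _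

/-- unbounded search -/
theorem OC.find {c : α × ℕ → ℕ} {f : α → ℕ} (hc : OC O c) (h1 : ∀ a, c (a, f a) = 0)
    (h2 : ∀ a, ∀ m < f a, c (a, m) ≠ 0) : OC O f := by
  rw [oc_iff] at hc ⊢
  have hid : Nat.RecursiveIn {O} (enc (fun a : α => a)) :=
    oc_iff.1 (OC.of_computable Computable.id)
  refine (hc.rfind.comp hid).of_eq (fun n => ?_)
  rcases e : decode (α := α) n with - | a
  · show (enc (fun a : α => a) n).bind _ = _
    simp [enc, e]
  · show (enc (fun a : α => a) n).bind _ = _
    have e1 : enc (fun a : α => a) n = Part.some (encode a) := by simp [enc, e]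
    have e2 : enc f n = Part.some (f a) := by simp [enc, e]
    rw [e1, e2, Part.bind_some, Part.eq_some_iff]
    have e3 : ∀ m, enc c (Nat.pair (encode a) m) = Part.some (c (a, m)) := by
      intro m
      simp [enc]
    refine Nat.mem_rfind.2 ⟨?_, ?_⟩
    · rw [e3, h1]
      exact Part.mem_map_iff _ |>.2 ⟨0, Part.mem_some 0, by simp⟩
    · intro m hm
      rw [e3]
      exact Part.mem_map_iff _ |>.2 ⟨c (a, m), Part.mem_some _, by simp [h2 a m hm]⟩

/-! ### predicates -/

/-- the predicate `p` is decidable in the oracle `O` -/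
def OP (O : ℕ →. ℕ) (p : α → Prop) : Prop := ∃ c : α → Bool, OC O c ∧ ∀ a, c a = true ↔ p a

theorem OP.of_computable {p : α → Prop} {c : α → Bool} (hc : Computable c)
    (h : ∀ a, c a = true ↔ p a) : OP O p := ⟨c, OC.of_computable hc, h⟩

theorem OP.of_iff {p q : α → Prop} (hp : OP O p) (h : ∀ a, p a ↔ q a) : OP O q := by
  obtain ⟨c, hc, h1⟩ := hp
  exact ⟨c, hc, fun a => (h1 a).trans (h a)⟩

theorem OP.not {p : α → Prop} (hp : OP O p) : OP O (fun a => ¬ p a) := by
  obtain ⟨c, hc, h1⟩ := hp
  refine ⟨fun a => !(c a), (OC.of_computable Primrec.not.to_comp).comp hc, fun a => ?_⟩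
  show (!(c a)) = true ↔ ¬ p a
  rw [← h1 a]; simp

theorem OP.and {p q : α → Prop} (hp : OP O p) (hq : OP O q) : OP O (fun a => p a ∧ q a) := by
  obtain ⟨c, hc, h1⟩ := hp
  obtain ⟨c', hc', h1'⟩ := hq
  refine ⟨fun a => c a && c' a, OC.comp₂ Primrec.and.to_comp hc hc', fun a => ?_⟩
  show (c a && c' a) = true ↔ p a ∧ q a
  rw [← h1 a, ← h1' a]; simp

theorem OP.or {p q : α → Prop} (hp : OP O p) (hq : OP O q) : OP O (fun a => p a ∨ q a) := by
  obtain ⟨c, hc, h1⟩ := hp
  obtain ⟨c', hc', h1'⟩ := hq
  refine ⟨fun a => c a || c' a, OC.comp₂ Primrec.or.to_comp hc hc', fun a => ?_⟩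
  show (c a || c' a) = true ↔ p a ∨ q a
  rw [← h1 a, ← h1' a]; simp

theorem OP.comp {p : β → Prop} {f : α → β} (hp : OP O p) (hf : OC O f) :
    OP O (fun a => p (f a)) := by
  obtain ⟨c, hc, h1⟩ := hp
  exact ⟨fun a => c (f a), hc.comp hf, fun a => h1 (f a)⟩

theorem OP.comp_computable {p : β → Prop} {f : α → β} (hp : OP O p) (hf : Computable f) :
    OP O (fun a => p (f a)) := hp.comp (OC.of_computable hf)

theorem OP.eq {f g : α → ℕ} (hf : OC O f) (hg : OC O g) : OP O (fun a => f a = g a) :=
  ⟨fun a => decide (f a = g a), OC.comp₂ (h := fun x y : ℕ => decide (x = y))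
    (computable_decide_eq Computable.fst Computable.snd) hf hg, fun a => by simp⟩

theorem OP.lt {f g : α → ℕ} (hf : OC O f) (hg : OC O g) : OP O (fun a => f a < g a) :=
  ⟨fun a => decide (f a < g a), OC.comp₂ (h := fun x y : ℕ => decide (x < y))
    (computable_decide_lt Computable.fst Computable.snd) hf hg, fun a => by simp⟩

theorem OP.le {f g : α → ℕ} (hf : OC O f) (hg : OC O g) : OP O (fun a => f a ≤ g a) :=
  ⟨fun a => decide (f a ≤ g a), OC.comp₂ (h := fun x y : ℕ => decide (x ≤ y))
    (computable_decide_le Computable.fst Computable.snd) hf hg, fun a => by simp⟩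

theorem OP.ball {p : α × ℕ → Prop} {f : α → ℕ} (hp : OP O p) (hf : OC O f) :
    OP O (fun a => ∀ n < f a, p (a, n)) := by
  obtain ⟨c, hc, h1⟩ := hp
  refine ⟨fun a => Pool.Agent.Lib_helper87.D2.ball (fun n => c (a, n)) (f a), ?_, fun a => ?_⟩
  · unfold Pool.Agent.Lib_helper87.D2.ball
    refine OC.nat_rec (g := fun _ => true) (h := fun a q => (q.2 && c (a, q.1))) hf
      (OC.const true) ?_
    refine OC.comp₂ Primrec.and.to_comp
      (OC.of_computable (Computable.snd.comp Computable.snd)) ?_
    exact hc.comp_computable (Computable.fst.pair (Computable.fst.comp Computable.snd))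
  · rw [ball_eq_true]
    exact forall_congr' (fun n => forall_congr' (fun _ => h1 (a, n)))

theorem OP.bex {p : α × ℕ → Prop} {f : α → ℕ} (hp : OP O p) (hf : OC O f) :
    OP O (fun a => ∃ n < f a, p (a, n)) := by
  refine (OP.ball (f := f) hp.not hf).not.of_iff (fun a => ?_)
  push Not; rfl

/-- the least witness of a predicate decidable in `O` is computable in `O` -/
theorem OP.find {p : α × ℕ → Prop} {f : α → ℕ} (hp : OP O p) (h1 : ∀ a, p (a, f a))
    (h2 : ∀ a, ∀ m < f a, ¬ p (a, m)) : OC O f := by
  obtain ⟨c, hc, h3⟩ := hp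
  refine OC.find (c := fun q => bif c q then 0 else 1)
    (OC.cond hc (OC.const 0) (OC.const 1)) (fun a => ?_) (fun a m hm => ?_)
  · rw [(h3 _).2 (h1 a)]; rfl
  · have : c (a, m) = false := by
      rw [← Bool.not_eq_true, h3]; exact h2 a m hm
    rw [this]; simp

open scoped Classical in
theorem OP.count {p : α × ℕ → Prop} {f : α → ℕ} (hp : OP O p) (hf : OC O f) :
    OC O (fun a => Nat.count (fun n => p (a, n)) (f a)) := by
  obtain ⟨c, hc, h1⟩ := hp
  have h : OC O (fun a => bcount (fun n => c (a, n)) (f a)) := by
    unfold bcount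
    refine OC.nat_rec (g := fun _ => 0)
      (h := fun a q => (bif c (a, q.1) then q.2 + 1 else q.2)) hf (OC.const 0) ?_
    refine OC.cond ?_ ((OC.of_computable Computable.succ).comp
      (OC.of_computable (Computable.snd.comp Computable.snd)))
      (OC.of_computable (Computable.snd.comp Computable.snd))
    exact hc.comp_computable (Computable.fst.pair (Computable.fst.comp Computable.snd))
  refine h.of_eq (fun a => ?_)
  rw [bcount_eq, Nat.count_eq_card_filter_range, Nat.count_eq_card_filter_range]
  congr 1
  exact Finset.filter_congr (fun n _ => h1 (a, n))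

/-! ### the halting problem -/

/-- limit computable functions are computable in every oracle which computes the halting problem -/
theorem OC.of_limC (hO : TuringReducible haltOracle O) {f : α → β} (hf : LimC f) : OC O f := by
  obtain ⟨g, hg, hlim⟩ := hf
  let F : ℕ → ℕ := fun n => Option.casesOn (decode (α := α) n) 0 (fun a => encode (f a))
  have hF : LimC F := by
    refine ⟨fun n s => Option.casesOn (decode (α := α) n) 0 (fun a => encode (g a s)), ?_,
      fun n => ?_⟩
    · refine Computable.option_casesOn (o := fun q : ℕ × ℕ => decode (α := α) q.1)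
        (f := fun _ => 0) (g := fun q a => encode (g a q.2))
        (Computable.decode.comp Computable.fst) (Computable.const 0) ?_
      exact Computable.encode.comp (Computable₂.comp hg Computable.snd
        (Computable.snd.comp Computable.fst))
    · rcases e : decode (α := α) n with - | a
      · simp [F, e]
      · simp only [F, e]
        filter_upwards [hlim a] with s hs
        rw [hs]
  have h1 : TuringReducible (fun n => Part.some (F n)) O := (ZeroJump.of_limC hF).trans hO
  have h2 : OC O F := RecursiveIn.iff_nat.2 (RecursiveIn.iff_nat.1 h1)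
  have h3 : OC O (fun a : α => F (encode a)) := h2.comp_computable Computable.encode
  rw [oc_iff] at h3 ⊢
  refine h3.of_eq (fun n => ?_)
  simp only [enc]
  rcases e : decode (α := α) n with - | a
  · simp
  · simp [F]

theorem OP.of_limP (hO : TuringReducible haltOracle O) {p : α → Prop} (hp : LimP p) : OP O p := by
  classical
  rw [limP_iff_limC] at hp
  exact ⟨fun a => decide (p a), OC.of_limC hO hp, fun a => by simp⟩

/-- for total functions on the natural numbers -/
theorem oc_iff_turing {f : ℕ → ℕ} : OC O f ↔ TuringReducible (fun n => Part.some (f n)) O := Iff.rfl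

end Pool.Agent.Lib_helper79.D2O
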