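import Pool.Agent.Lib_helper87.D2.Defs

/-!
# Categoricity of computable equivalence structures relative to an arbitrary oracle
-/

set_option autoImplicit false

namespace Pool.Agent.Lib_helper79.D2O

open Pool.Agent.Lib_helper87.D2

/-- The total function `f` is computable in the oracle `O`, a function from numbers to numbers which
need not be total. -/
def FnIn (O : ℕ →. ℕ) (f : ℕ → ℕ) : Prop :=
  TuringReducible (fun n => Part.some (f n)) O

/-- The set `S` of natural numbers is computable in the oracle `O`. -/
def SetIn (O : ℕ →. ℕ) (S : Set ℕ) : Prop :=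
  open scoped Classical in FnIn O (fun n => if n ∈ S then 1 else 0)

/-- `A` is computably categorical relative to the degree of `O`: every computable copy of `A` is
isomorphic to `A` through an isomorphism computable in `O`. -/
def CategoricalIn (O : ℕ →. ℕ) (A : CompEqStr) : Prop :=
  ∀ B : CompEqStr, (∃ f, IsIso A B f) → ∃ f, IsIso A B f ∧ FnIn O f

/-- The sizes of the finite sets among the `V j` are bounded by a function computable in `O`. -/
def BoundedIn (O : ℕ →. ℕ) (V : ℕ → Set ℕ) : Prop :=
  ∃ g : ℕ → ℕ, FnIn O g ∧ ∀ j, (V j).Finite → (V j).ncard ≤ g j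

end Pool.Agent.Lib_helper79.D2O
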