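import Pool.Agent.Lib_helper79.D2O.API
import Pool.Agent.Lib_helper79.D2O.Defs
import Pool.Agent.Lib_helper87.D2.Nec

/-!
# Categoricity relative to an oracle above the halting problem
-/

set_option autoImplicit false

namespace Pool.Agent.Lib_helper79.D2O

open Pool.Agent.Lib_helper87.D2 CompEqStr SizeFn Filter Set

variable {O : ℕ →. ℕ}

theorem setIn_iff_op {S : Set ℕ} : SetIn O S ↔ OP O (fun n => n ∈ S) := by
  classical
  constructor
  · intro h
    have h1 : OC O (fun n => if n ∈ S then 1 else 0 : ℕ → ℕ) := by
      rw [oc_iff_turing]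
      exact (show FnIn O _ from h)
    refine (OP.eq h1 (OC.const 1)).of_iff (fun n => ?_)
    by_cases hn : n ∈ S <;> simp [hn]
  · rintro ⟨c, hc, h1⟩
    have h2 : OC O (fun n => bif c n then 1 else 0 : ℕ → ℕ) := OC.cond hc (OC.const 1) (OC.const 0)
    have h3 := oc_iff_turing.1 h2
    have h4 : (fun n => if n ∈ S then 1 else 0 : ℕ → ℕ) = (fun n => bif c n then 1 else 0) := by
      funext n
      by_cases hn : n ∈ S
      · rw [if_pos hn, (h1 n).2 hn]; rfl
      · have : c n = false := by
          rw [← Bool.not_eq_true, h1]; exact hn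
        rw [if_neg hn, this]; rfl
    unfold SetIn FnIn
    rw [h4]
    exact h3

/-- `Π⁰₁` predicates are limit computable -/
theorem limP_pi1 {α : Type*} [Primcodable α] {R : α → ℕ → Bool} (hR : Computable₂ R) :
    LimP (fun a => ∀ t, R a t = true) := by
  refine ⟨fun a s => ball (fun t => R a t) s, ?_, fun a => ?_⟩
  · refine computable_ball (α := α × ℕ) (c := fun q t => R q.1 t) (f := fun q => q.2) ?_
      Computable.snd
    exact Computable₂.comp hR (Computable.fst.comp Computable.fst) Computable.snd
  · by_cases h : ∀ t, R a t = true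
    · refine Eventually.of_forall (fun s => ?_)
      rw [ball_eq_true]
      exact ⟨fun _ => h, fun _ t _ => h t⟩
    · have h1 := h
      push Not at h1
      obtain ⟨t, ht⟩ := h1
      filter_upwards [eventually_gt_atTop t] with s hs
      rw [ball_eq_true]
      exact ⟨fun h2 => absurd (h2 t hs) ht, fun h2 => absurd h2 h⟩

/-- the infinite classes of `A` are decided by `O` -/
def InfO (O : ℕ →. ℕ) (A : CompEqStr) : Prop := OP O (fun j => (A.cls j).Infinite)

theorem infO_of_limP (hO : TuringReducible haltOracle O) {A : CompEqStr} (h : A.InfLim) :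
    InfO O A := OP.of_limP hO h

theorem infO_of_setIn {A : CompEqStr} (h : SetIn O {j | (A.clsFam j).Infinite}) : InfO O A := by
  obtain ⟨c, hc, h1⟩ := A.exists_carrier_dec
  rw [setIn_iff_op] at h
  refine ((OP.of_computable hc h1).and (h.comp_computable A.rp_computable)).of_iff (fun j => ?_)
  by_cases hj : j ∈ A.carrier
  · simp only [hj, true_and, mem_ofPred_eq, clsFam_of_rep (rp_rep hj), cls_eq (rp_rel hj)]
  · simp only [hj, false_and, false_iff]
    intro h2
    obtain ⟨y, hy⟩ := h2.nonempty
    exact hj (A.rel_sub _ _ hy).1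

variable {A B : CompEqStr}

theorem oc_sz (hO : TuringReducible haltOracle O) (h : InfO O A) : OC O A.sz := by
  classical
  obtain ⟨r, hr, h2⟩ := A.exists_rel_dec
  -- a bound for the elements of a finite class
  have hb : ∀ j, ∃ n, (A.cls j).Infinite ∨ ∀ t, (decide (t < n) || !(r j t)) = true := by
    intro j
    by_cases hinf : (A.cls j).Infinite
    · exact ⟨0, Or.inl hinf⟩
    · rw [Set.not_infinite] at hinf
      obtain ⟨b, hb⟩ := hinf.bddAbove
      refine ⟨b + 1, Or.inr (fun t => ?_)⟩
      by_cases ht : t < b + 1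
      · simp [ht]
      · have h3 : r j t = false := by
          rw [← Bool.not_eq_true, h2]
          intro h4
          exact ht (Nat.lt_succ_of_le (hb h4))
        simp [h3]
  have hP : OP O (fun q : ℕ × ℕ => (A.cls q.1).Infinite ∨
      ∀ t, (decide (t < q.2) || !(r q.1 t)) = true) := by
    refine OP.or (h.comp_computable Computable.fst) (OP.of_limP hO (limP_pi1 ?_))
    refine Computable₂.comp Primrec.or.to_comp ?_ ?_
    · exact computable_decide_lt Computable.snd (Computable.snd.comp Computable.fst)
    · exact Primrec.not.to_comp.comp (Computable₂.comp hr (Computable.fst.comp Computable.fst)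
        Computable.snd)
  have hf : OC O (fun j => Nat.find (hb j)) :=
    OP.find hP (fun j => Nat.find_spec (hb j)) (fun j m hm => Nat.find_min (hb j) hm)
  have hrel : OP O (fun q : ℕ × ℕ => A.rel q.1 q.2) :=
    OP.of_computable (c := fun q => r q.1 q.2) hr (fun q => h2 q.1 q.2)
  have hcount := OP.count hrel hf
  obtain ⟨c, hc, h3⟩ := h
  refine (OC.cond hc (OC.const 0) hcount).of_eq (fun j => ?_)
  by_cases hinf : (A.cls j).Infinite
  · rw [(h3 j).2 hinf, cond_true]
    unfold sz
    rw [hinf.encard_eq]; rfl
  · have h4 : c j = false := by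
      rw [← Bool.not_eq_true, h3]; exact hinf
    rw [h4, cond_false]
    have h5 := (Nat.find_spec (hb j)).resolve_left hinf
    rw [Set.not_infinite] at hinf
    unfold sz
    rw [hinf.encard_eq_coe_toFinset_card, ENat.toNat_coe, Nat.count_eq_card_filter_range]
    congr 1
    ext y
    simp only [Finset.mem_filter, Finset.mem_range, Set.Finite.mem_toFinset]
    constructor
    · exact fun h => h.2
    · intro h6
      refine ⟨?_, h6⟩
      have h7 := h5 y
      rw [Bool.or_eq_true] at h7
      rcases h7 with h7 | h7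
      · simpa using h7
      · have h8 : r j y = true := (h2 j y).2 h6
        rw [h8] at h7
        simp at h7

theorem op_rep : OP O A.Rep := by
  obtain ⟨c, hc, h1⟩ := A.exists_rep_dec
  exact OP.of_computable hc h1

theorem op_carrier : OP O (fun x => x ∈ A.carrier) := by
  obtain ⟨c, hc, h1⟩ := A.exists_carrier_dec
  exact OP.of_computable hc h1

theorem oc_rank (hO : TuringReducible haltOracle O) (h : InfO O A) : OC O A.rank := by
  classical
  have h1 : OP O (fun q : ℕ × ℕ => A.Rep q.2 ∧ A.sz q.2 = A.sz q.1) :=
    (op_rep.comp_computable Computable.snd).and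
      (OP.eq ((oc_sz hO h).comp_computable Computable.snd)
        ((oc_sz hO h).comp_computable Computable.fst))
  refine (OP.count (f := fun j => j) h1 (OC.of_computable Computable.id)).of_eq (fun j => ?_)
  unfold rank
  exact count_congr_iff (fun _ => Iff.rfl) _

theorem oc_pos : OC O A.pos := by
  obtain ⟨r, hr, h2⟩ := A.exists_rel_dec
  have h1 : OP O (fun q : ℕ × ℕ => A.rel q.1 q.2) :=
    OP.of_computable (c := fun q => r q.1 q.2) hr (fun q => h2 q.1 q.2)
  refine (OP.count (f := fun j => j) h1 (OC.of_computable Computable.id)).of_eq (fun j => ?_)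
  unfold pos
  exact count_congr_iff (fun _ => Iff.rfl) _

theorem op_coord (hO : TuringReducible haltOracle O) (hA : InfO O A) (hB : InfO O B) :
    OP O (fun q : ℕ × ℕ => B.coord q.2 = A.coord q.1) := by
  have h1 := OP.eq
    (((oc_sz hO hB).comp_computable B.rp_computable).comp_computable (Computable.snd (α := ℕ)))
    (((oc_sz hO hA).comp_computable A.rp_computable).comp_computable (Computable.fst (β := ℕ)))
  have h2 := OP.eq
    (((oc_rank hO hB).comp_computable B.rp_computable).comp_computable (Computable.snd (α := ℕ)))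
    (((oc_rank hO hA).comp_computable A.rp_computable).comp_computable (Computable.fst (β := ℕ)))
  have h3 := OP.eq ((oc_pos (O := O) (A := B)).comp_computable (Computable.snd (α := ℕ)))
    ((oc_pos (A := A)).comp_computable (Computable.fst (β := ℕ)))
  refine (h1.and (h2.and h3)).of_iff (fun q => ?_)
  simp only [coord, Prod.mk.injEq]

/-- the canonical isomorphism is computable in `O` -/
theorem exists_isIso_in (hO : TuringReducible haltOracle O)
    (h : ∀ c ≠ 0, classCount A c = classCount B c) (hA : InfO O A)
    (hB : InfO O B) : ∃ f, IsIso A B f ∧ FnIn O f := by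
  obtain ⟨f, hf, h1⟩ := exists_isIso h
  refine ⟨f, hf, ?_⟩
  have h2 : OP O (fun q : ℕ × ℕ => (q.1 ∈ A.carrier ∧ (q.2 ∈ B.carrier ∧
      B.coord q.2 = A.coord q.1)) ∨ (¬ q.1 ∈ A.carrier ∧ q.2 = 0)) := by
    refine OP.or ?_ ?_
    · exact (op_carrier.comp_computable Computable.fst).and
        ((op_carrier.comp_computable Computable.snd).and (op_coord hO hA hB))
    · exact (op_carrier.comp_computable Computable.fst).not.and
        (OP.eq (OC.of_computable Computable.snd) (OC.const 0))
  refine oc_iff_turing.1 (OP.find h2 (fun x => ?_) (fun x m hm => ?_))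
  · by_cases hx : x ∈ A.carrier
    · exact Or.inl ⟨hx, (h1 x).1 hx⟩
    · exact Or.inr ⟨hx, (h1 x).2 hx⟩
  · rintro (⟨hx, hm1, hm2⟩ | ⟨hx, hm1⟩)
    · have h3 := (h1 x).1 hx
      have := coord_inj hm1 h3.1 (hm2.trans h3.2.symm)
      omega
    · have h3 := (h1 x).2 hx
      simp only at hm1
      omega

/-- sufficiency -/
theorem categoricalIn_of (hO : TuringReducible haltOracle O)
    (h : ∀ V : ℕ → Set ℕ, UnifCE V → Dominated V A → SetIn O {j | (V j).Infinite}) :
    CategoricalIn O A := by
  rintro B ⟨f, hf⟩
  have h1 : ∀ c ≠ 0, classCount A c = classCount B c := fun c _ => classCount_eq_of_isIso hf c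
  refine exists_isIso_in hO h1 ?_ ?_
  · exact infO_of_setIn (h _ A.unifCE_clsFam (dominated_clsFam (fun _ _ => rfl)))
  · exact infO_of_setIn (h _ B.unifCE_clsFam (dominated_clsFam (fun c hc => (h1 c hc).symm)))

/-! ### necessity -/

theorem infO_of_iso {f : ℕ → ℕ} (hf : IsIso A B f) (hz : FnIn O f) (hB : InfO O B) :
    InfO O A := by
  have hz' : OC O f := oc_iff_turing.2 hz
  refine ((op_carrier (A := A)).and (OP.comp hB hz')).of_iff (fun x => ?_)
  constructor
  · rintro ⟨h1, h2⟩
    exact (infinite_iff_of_isIso hf h1).1 h2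
  · intro h2
    obtain ⟨y, hy⟩ := h2.nonempty
    have h1 : x ∈ A.carrier := (A.rel_sub _ _ hy).1
    exact ⟨h1, (infinite_iff_of_isIso hf h1).2 h2⟩

theorem infO_of_iso' {f : ℕ → ℕ} (hf : IsIso A B f) (hz : FnIn O f) (hA : InfO O A) :
    InfO O B := by
  classical
  have hz' : OC O f := oc_iff_turing.2 hz
  have hsurj : ∀ y, ∃ x, (y ∈ B.carrier ∧ (x ∈ A.carrier ∧ f x = y)) ∨ (¬ y ∈ B.carrier ∧ x = 0) := by
    intro y
    by_cases hy : y ∈ B.carrier
    · obtain ⟨x, hx, rfl⟩ := hf.1.2.2 hy
      exact ⟨x, Or.inl ⟨hy, hx, rfl⟩⟩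
    · exact ⟨0, Or.inr ⟨hy, rfl⟩⟩
  have hinv : OC O (fun y => Nat.find (hsurj y)) := by
    have h2 : OP O (fun q : ℕ × ℕ => (q.1 ∈ B.carrier ∧ (q.2 ∈ A.carrier ∧ f q.2 = q.1)) ∨
        (¬ q.1 ∈ B.carrier ∧ q.2 = 0)) := by
      refine OP.or ?_ ?_
      · exact (op_carrier.comp_computable Computable.fst).and
          ((op_carrier.comp_computable Computable.snd).and
            (OP.eq (hz'.comp_computable Computable.snd) (OC.of_computable Computable.fst)))
      · exact (op_carrier.comp_computable Computable.fst).not.and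
          (OP.eq (OC.of_computable Computable.snd) (OC.const 0))
    exact OP.find h2 (fun y => Nat.find_spec (hsurj y)) (fun y m hm => Nat.find_min (hsurj y) hm)
  refine ((op_carrier (A := B)).and (OP.comp hA hinv)).of_iff (fun y => ?_)
  have key : y ∈ B.carrier → ((A.cls (Nat.find (hsurj y))).Infinite ↔ (B.cls y).Infinite) := by
    intro hy
    rcases Nat.find_spec (hsurj y) with h1 | h1
    · conv_rhs => rw [← h1.2.2]
      exact (infinite_iff_of_isIso hf h1.2.1).symm
    · exact absurd hy h1.1
  constructor
  · rintro ⟨h1, h2⟩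
    exact (key h1).1 h2
  · intro h2
    obtain ⟨x, hx⟩ := h2.nonempty
    have h1 : y ∈ B.carrier := (B.rel_sub _ _ hx).1
    exact ⟨h1, (key h1).2 h2⟩

/-- recognition of the infinite sets from the recognition of the infinite classes -/
theorem op_of_infO (hO : TuringReducible haltOracle O) {w : SizeFn} (h : InfO O w.toStr) :
    OP O (fun j => w.lim j = ⊤) := by
  classical
  have hR : Computable₂ (fun (j t : ℕ) => decide (w.n j t = 0)) :=
    computable_decide_eq w.comp (Computable.const 0)
  have hz : OP O (fun j => ∀ t, decide (w.n j t = 0) = true) := OP.of_limP hO (limP_pi1 hR)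
  have hex : ∀ j, ∃ t, (∀ t, decide (w.n j t = 0) = true) ∨ 0 < w.n j t := by
    intro j
    by_cases h0 : ∃ t, 0 < w.n j t
    · obtain ⟨t, ht⟩ := h0
      exact ⟨t, Or.inr ht⟩
    · push Not at h0
      exact ⟨0, Or.inl (fun t => by have := h0 t; simp; omega)⟩
  have hpos : OP O (fun q : ℕ × ℕ => 0 < w.n q.1 q.2) :=
    OP.of_computable (c := fun q => decide (0 < w.n q.1 q.2))
      (computable_decide_lt (Computable.const 0) w.comp) (fun q => by simp)
  have hf : OC O (fun j => Nat.find (hex j)) :=
    OP.find (p := fun q : ℕ × ℕ => (∀ t, decide (w.n q.1 t = 0) = true) ∨ 0 < w.n q.1 q.2)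
      ((hz.comp_computable Computable.fst).or hpos)
      (fun j => Nat.find_spec (hex j)) (fun j m hm => Nat.find_min (hex j) hm)
  have hx : OC O (fun j => Nat.pair j (Nat.pair 0 (Nat.find (hex j)))) :=
    OC.comp₂ Primrec₂.natPair.to_comp (OC.of_computable Computable.id)
      (OC.comp₂ Primrec₂.natPair.to_comp (OC.const 0) hf)
  refine (hz.not.and (OP.comp h hx)).of_iff (fun j => ?_)
  by_cases h0 : ∀ t, decide (w.n j t = 0) = true
  · have h2 : w.lim j = 0 := lim_eq_zero.2 (fun s => by simpa using h0 s)
    constructor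
    · rintro ⟨h3, _⟩
      exact absurd h0 h3
    · intro h3
      rw [h2] at h3
      exact absurd h3 (by simp)
  · have hf1 := (Nat.find_spec (hex j)).resolve_left h0
    have hm : ∀ t < Nat.find (hex j), w.n j t = 0 := fun t ht => by
      have := Nat.find_min (hex j) ht
      push Not at this
      have := this.2
      omega
    have hin : w.InS (Nat.pair j (Nat.pair 0 (Nat.find (hex j)))) := by
      refine ⟨?_, ?_⟩
      · simp only [Nat.unpair_pair]; exact hf1
      · simp only [Nat.unpair_pair]
        intro t ht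
        rw [hm t ht]; omega
    have h1 := cls_toStr_encard hin
    rw [Nat.unpair_pair] at h1
    constructor
    · rintro ⟨_, h3⟩
      rw [← Set.encard_eq_top_iff, h1] at h3
      exact h3
    · intro h3
      refine ⟨h0, ?_⟩
      rw [← Set.encard_eq_top_iff, h1]
      exact h3

/-- necessity, for size functions -/
theorem op_of_categorical (hO : TuringReducible haltOracle O) (hA : CategoricalIn O A) (v : SizeFn)
    (hv : ∀ c ≠ 0, v.cnt c ≤ classCount A c) : OP O (fun j => v.lim j = ⊤) := by
  classical
  by_cases htop : classCount A ⊤ = ⊤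
  · -- a size function for `A`
    obtain ⟨u, hu⟩ := exists_of_unifCE A.unifCE_clsFam
    have hucnt : ∀ c : ℕ∞, c ≠ 0 → u.cnt c = classCount A c := by
      intro c hc
      unfold cnt
      rw [← repSet_encard, ← setOf_clsFam hc]
      congr 1
      ext j
      rw [mem_ofPred_eq, mem_ofPred_eq, hu]
    let w := v.sparse
    let vc : ℕ → ℕ := fun c => Nat.count (fun j => w.lim j = c) (c + 1)
    have hvc : ∀ c : ℕ, c ≠ 0 → w.cnt c = vc c := fun c hc => sparse_cnt hc
    have hvc2 : ∀ c : ℕ, c ≠ 0 → ((vc c : ℕ) : ℕ∞) ≤ u.cnt c := by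
      intro c hc
      rw [← hvc c hc, hucnt c (by exact_mod_cast hc)]
      exact (sparse_le hc).trans (hv c (by exact_mod_cast hc))
    have lvc : LimC vc := by
      have h1 : LimP (fun q : ℕ × ℕ => w.lim q.2 = q.1) :=
        (limP_lim_eq w).comp_computable (Computable.snd.pair Computable.fst)
      refine (LimP.count (f := fun c => c + 1) h1 (LimC.of_computable Computable.succ)).of_eq
        (fun c => ?_)
      exact count_congr_iff (fun _ => Iff.rfl) _
    -- the approximated predicates
    have lu : LimP (fun q : ℕ => u.lim q.unpair.1 = q.unpair.2) :=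
      (limP_lim_eq u).comp_computable Computable.unpair
    have lne : LimP (fun q : ℕ => q.unpair.2 ≠ 0) :=
      (LimP.eq (LimC.of_computable (Computable.snd.comp Computable.unpair)) (LimC.const 0)).not
    have lcount : LimC (fun q : ℕ => Nat.count (fun i => u.lim i = q.unpair.2) q.unpair.1) := by
      have e : Computable (fun q : ℕ × ℕ => (q.2, q.1.unpair.2)) :=
        Computable.snd.pair (Computable.snd.comp (Computable.unpair.comp Computable.fst))
      have h1 : LimP (fun q : ℕ × ℕ => u.lim q.2 = q.1.unpair.2) := (limP_lim_eq u).comp_computable e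
      refine (LimP.count (f := fun q => q.unpair.1) h1
        (LimC.of_computable (Computable.fst.comp Computable.unpair))).of_eq (fun c => ?_)
      exact count_congr_iff (fun _ => Iff.rfl) _
    have lvc' : LimC (fun q : ℕ => vc q.unpair.2) :=
      lvc.comp_computable (Computable.snd.comp Computable.unpair)
    have lΨ := lu.and (lne.and (LimP.le lvc' lcount))
    have lΨ0 := lu.and lne
    obtain ⟨g, hg, hgs⟩ := lΨ
    obtain ⟨g0, hg0, hgs0⟩ := lΨ0
    -- the copy whose infinite classes are recognised
    have hC : ∀ c ≠ 0, classCount A c = classCount (fill g0 hg0).toStr c := by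
      intro c hc
      rw [classCount_toStr hc]
      by_cases hct : c = ⊤
      · rw [hct, htop, cnt_fill_top hgs0 ⟨0, by simp⟩]
      · obtain ⟨m, rfl⟩ := ENat.ne_top_iff_exists.1 hct
        have hm : m ≠ 0 := by exact_mod_cast hc
        rw [cnt_fill hgs0, ← hucnt _ hc]
        unfold cnt
        congr 1
        ext i
        simp [hm]
    -- the copy which contains the given family
    have hB : ∀ c ≠ 0, classCount A c = classCount (w.add (fill g hg)).toStr c := by
      intro c hc
      rw [classCount_toStr hc, cnt_add]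
      by_cases hct : c = ⊤
      · rw [hct, htop, cnt_fill_top hgs ⟨0, by simp⟩]
        simp
      · obtain ⟨m, rfl⟩ := ENat.ne_top_iff_exists.1 hct
        have hm : m ≠ 0 := by exact_mod_cast hc
        rw [cnt_fill hgs, ← hucnt _ hc, hvc m hm, add_comm]
        have h1 := encard_count_ge (p := fun i => u.lim i = m) (v := vc m) (hvc2 m hm)
        unfold cnt
        rw [← h1]
        congr 2
        ext i
        simp only [Nat.unpair_pair, mem_ofPred_eq, ne_eq, hm, not_false_eq_true, true_and]
        refine and_congr Iff.rfl ?_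
        rw [count_congr_iff (q := fun i => u.lim i = m) (fun _ => Iff.rfl) i]
    obtain ⟨fC, hfC, hzC⟩ := hA _ (let ⟨f, hf, _⟩ := exists_isIso hC; ⟨f, hf⟩)
    obtain ⟨fB, hfB, hzB⟩ := hA _ (let ⟨f, hf, _⟩ := exists_isIso hB; ⟨f, hf⟩)
    have h1 : InfO O A := infO_of_iso hfC hzC (infO_of_limP hO (infLim_toStr (limP_fill hg0)))
    have h2 := op_of_infO hO (infO_of_iso' hfB hzB h1)
    have h3 : Computable (fun j : ℕ => 2 * j) :=
      (Primrec.nat_mul.comp (Primrec.const 2) Primrec.id).to_comp
    refine (h2.comp_computable h3).of_iff (fun j => ?_)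
    rw [add_even, sparse_top]
  · -- finitely many infinite classes
    have h1 : {j | v.lim j = ⊤}.Finite := by
      rw [← Set.encard_lt_top_iff]
      exact lt_of_le_of_lt (hv ⊤ (by simp)) (lt_top_iff_ne_top.2 htop)
    refine (OP.of_limP hO (limP_finset h1.toFinset)).of_iff (fun j => ?_)
    simp

/-- necessity -/
theorem setIn_of_categorical (hO : TuringReducible haltOracle O) (hA : CategoricalIn O A)
    {V : ℕ → Set ℕ} (hV : UnifCE V) (hdom : Dominated V A) : SetIn O {j | (V j).Infinite} := by
  obtain ⟨v, hv⟩ := SizeFn.exists_of_unifCE hV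
  rw [setIn_iff_op]
  refine (op_of_categorical hO hA v (fun c hc => ?_)).of_iff (fun j => ?_)
  · refine le_trans (le_of_eq ?_) (hdom c hc)
    unfold SizeFn.cnt
    congr 1
    ext j
    rw [mem_ofPred_eq, mem_ofPred_eq, hv]
  · rw [hv, Set.encard_eq_top_iff]
    rfl

/-- the characterisation relative to an oracle above the halting problem -/
theorem categoricalIn_iff (hO : TuringReducible haltOracle O) : CategoricalIn O A ↔
    ∀ V : ℕ → Set ℕ, UnifCE V → Dominated V A → SetIn O {j | (V j).Infinite} :=
  ⟨fun h _ hV hd => setIn_of_categorical hO h hV hd, categoricalIn_of hO⟩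

/-! ### bounds for the finite sets -/

/-- for a uniformly computably enumerable sequence and an oracle above the halting problem the
infinite members are decided by `O` if and only if the sizes of the finite ones are bounded by a
function computable in `O` -/
theorem setIn_iff_boundedIn (hO : TuringReducible haltOracle O) {V : ℕ → Set ℕ} (hV : UnifCE V) :
    SetIn O {j | (V j).Infinite} ↔ BoundedIn O V := by
  classical
  obtain ⟨v, hv⟩ := SizeFn.exists_of_unifCE hV
  -- `v.n j s ≤ m` for all `s`
  have hR : Computable₂ (fun (q : ℕ × ℕ) (t : ℕ) => decide (v.n q.1 t ≤ q.2)) :=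
    computable_decide_le (Computable₂.comp v.comp (Computable.fst.comp Computable.fst)
      Computable.snd) (Computable.snd.comp Computable.fst)
  have hP : OP O (fun q : ℕ × ℕ => ∀ t, decide (v.n q.1 t ≤ q.2) = true) :=
    OP.of_limP hO (limP_pi1 hR)
  have hle : ∀ j m : ℕ, (∀ t, decide (v.n j t ≤ m) = true) ↔ (V j).encard ≤ m := by
    intro j m
    rw [← hv]
    constructor
    · intro h
      exact iSup_le (fun t => by have := h t; simp only [decide_eq_true_eq] at this; exact_mod_cast this)
    · intro h t
      have h1 : ((v.n j t : ℕ) : ℕ∞) ≤ m := (v.le_lim).trans h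
      simp only [decide_eq_true_eq]
      exact_mod_cast h1
  constructor
  · intro h
    rw [setIn_iff_op] at h
    have hex : ∀ j, ∃ m, (j ∈ {j | (V j).Infinite}) ∨ ∀ t, decide (v.n j t ≤ m) = true := by
      intro j
      by_cases hj : (V j).Infinite
      · exact ⟨0, Or.inl hj⟩
      · rw [Set.not_infinite] at hj
        refine ⟨(V j).ncard, Or.inr ((hle j _).2 ?_)⟩
        rw [hj.cast_ncard_eq]
    refine ⟨fun j => Nat.find (hex j), ?_, fun j hj => ?_⟩
    · exact oc_iff_turing.1 (OP.find (p := fun q : ℕ × ℕ => (q.1 ∈ {j | (V j).Infinite}) ∨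
        ∀ t, decide (v.n q.1 t ≤ q.2) = true) ((h.comp_computable Computable.fst).or hP)
        (fun j => Nat.find_spec (hex j)) (fun j m hm => Nat.find_min (hex j) hm))
    · have h1 := (Nat.find_spec (hex j)).resolve_left (fun h => h hj)
      have h2 := (hle j _).1 h1
      rw [← hj.cast_ncard_eq] at h2
      exact_mod_cast h2
  · rintro ⟨g, hg, hb⟩
    rw [setIn_iff_op]
    have hg' : OC O g := oc_iff_turing.2 hg
    have h1 : OP O (fun j => ∀ t, decide (v.n j t ≤ g j) = true) :=
      OP.comp hP ((OC.of_computable Computable.id).pair hg')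
    refine h1.not.of_iff (fun j => ?_)
    rw [hle]
    show ¬ (V j).encard ≤ g j ↔ (V j).Infinite
    constructor
    · intro h2
      by_contra h3
      rw [Set.not_infinite] at h3
      apply h2
      rw [← h3.cast_ncard_eq]
      exact_mod_cast hb j h3
    · intro h2 h3
      rw [h2.encard_eq] at h3
      exact absurd h3 (not_le.2 (ENat.coe_lt_top _))

/-- the main theorem -/
theorem main (hO : TuringReducible haltOracle O) (A : CompEqStr) : List.TFAE [
    CategoricalIn O A,
    ∀ V : ℕ → Set ℕ, UnifCE V → Dominated V A → SetIn O {j | (V j).Infinite},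
    ∀ V : ℕ → Set ℕ, UnifCE V → Dominated V A → BoundedIn O V] := by
  tfae_have 1 ↔ 2 := categoricalIn_iff hO
  tfae_have 2 ↔ 3 := forall_congr' (fun V => forall_congr' (fun hV => forall_congr' (fun _ =>
    setIn_iff_boundedIn hO hV)))
  tfae_finish

end Pool.Agent.Lib_helper79.D2O
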